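import Pool.Agent.Helper50.GP.St

set_option autoImplicit false

/-!
# GP module NEX: choice of the exponents
-/

namespace Pool.Agent.Helper33.GP

open Pool.Agent.Helper50.GP

theorem hNEX : StNEX := by
  classical
  intro p q m g e1 e2 hP
  have key : ∀ r : ℕ, ∀ k : ZMod p, r < p - 1 →
      ∃ n : ℕ, ((g ^ n : ℕ) : ZMod (p ^ 2)) = ((r + 1 + p * k.val : ℕ) : ZMod (p ^ 2)) := by
    intro r k hr
    have hnd : ¬ (p : ℤ) ∣ ((r + 1 + p * k.val : ℕ) : ℤ) := by
      rw [Int.natCast_dvd_natCast]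
      intro h
      have h2 : p ∣ r + 1 := (Nat.dvd_add_left (Dvd.intro _ rfl)).1 h
      have h3 := Nat.le_of_dvd (Nat.succ_pos r) h2
      omega
    obtain ⟨n, hn⟩ := hP.prim _ hnd
    refine ⟨n, ?_⟩
    rw [hn]
    exact Int.cast_natCast _
  refine ⟨fun r k => if h : r < p - 1 then g ^ (Classical.choose (key r k h)) else 1, ?_⟩
  intro r hr k
  simp only [dif_pos hr]
  exact ⟨⟨_, rfl⟩, Classical.choose_spec (key r k hr)⟩

end Pool.Agent.Helper33.GP
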